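import Pool.Agent.Q107.QC.Final

/-!
# The q-congruence for the ratios `R_t(q)` modulo `Φ_{n^s}(q)^2`

For `n ≡ 1 mod 4`, `n > 1`, and `r > s ≥ 1` the rational functions `R_r` and `R_s` are congruent
modulo the square of the cyclotomic polynomial of order `n^s`.
-/

namespace Pool.Agent.Results.MP_74870a_nt.RatioCongruence

open Finset Polynomial

/-- the shifted factorial `(a; b)_k` in the field of rational functions -/
noncomputable def poch (a b : RatFunc ℚ) (k : ℕ) : RatFunc ℚ :=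
  ∏ j ∈ range k, (1 - a * b ^ j)

/-- the ratio `R_t(q)`, with `q = RatFunc.X` -/
noncomputable def R (n t : ℕ) : RatFunc ℚ :=
  poch RatFunc.X (RatFunc.X ^ 2) ((n ^ t - 1) / 4) *
      poch (RatFunc.X ^ (2 * n)) (RatFunc.X ^ (2 * n)) ((n ^ (t - 1) - 1) / 4) /
    (poch (RatFunc.X ^ 2) (RatFunc.X ^ 2) ((n ^ t - 1) / 4) *
      poch (RatFunc.X ^ n) (RatFunc.X ^ (2 * n)) ((n ^ (t - 1) - 1) / 4))

/-- congruence of rational functions modulo a polynomial: written in lowest terms, the difference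
has numerator divisible by `P` and denominator coprime to `P` -/
def CongMod (F G : RatFunc ℚ) (P : ℚ[X]) : Prop :=
  P ∣ (F - G).num ∧ IsCoprime (F - G).denom P

theorem result : ∀ n : ℕ, 1 < n → n % 4 = 1 → ∀ r s : ℕ, 0 < s → s < r →
    CongMod (R n r) (R n s) ((cyclotomic (n ^ s) ℚ) ^ 2) := by
  intro n _ hn r s hs hrs
  obtain ⟨r', rfl⟩ : ∃ r', r = r' + 1 := ⟨r - 1, by omega⟩
  obtain ⟨s', rfl⟩ : ∃ s', s = s' + 1 := ⟨s - 1, by omega⟩
  have h := Q107.QC.final hn hs hrs (F := R n (r' + 1)) (G := R n (s' + 1))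
    (Q107.QC.quotient_eq hn r') (Q107.QC.quotient_eq hn s')
  exact ⟨h.1, h.2.symm⟩

end Pool.Agent.Results.MP_74870a_nt.RatioCongruence
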